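import Pool.Agent.Q39.RS.Defs
import Pool.Agent.Q39.POG.Link

set_option autoImplicit false

/-!
# Seven lines: three through a point, four others
-/

namespace Pool.Agent.Q39.RS

open MvPolynomial Pool.Agent.Q39.POG Pool.Agent.Q39.SP

variable {K : Type} [Field K]

/-- the four lines `z = 0`, `z = x`, `z = y`, `z = x + b y` -/
def cc (b : K) : Fin 4 → K × K := ![(0, 0), (1, 0), (0, 1), (1, b)]

/-- the three lines `x = 0`, `x + (b - 1) y = 0`, `x + t y = 0` -/
def vw (b t : K) : Fin 3 → K × K := ![(1, 0), (1, b - 1), (1, t)]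

/-- the condition on the parameters -/
structure OK (b t : K) : Prop where
  b0 : b ≠ 0
  b1 : b ≠ 1
  t0 : t ≠ 0
  t1 : t ≠ -1
  tb : t ≠ b
  tb1 : t ≠ b - 1

/-- the family of coefficient vectors -/
def AA (b t : K) : Fin (3 + 4) → Fin 3 → K :=
  Fin.append (fun k => ![(vw b t k).1, (vw b t k).2, 0]) (fun i => ![-(cc b i).1, -(cc b i).2, 1])

variable {b t : K}

lemma cc_inj (h : OK b t) : Function.Injective (cc b) := by
  intro i j hij
  have h1 := congrArg Prod.fst hij
  have h2 := congrArg Prod.snd hij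
  have := h.b0
  have := h.b1
  fin_cases i <;> fin_cases j <;> simp [cc] at h1 h2 ⊢ <;> simp_all

lemma cc_gen (h : OK b t) : GenPos (cc b) := by
  intro k i j hki hkj hij
  have hb := h.b0
  fin_cases k <;> fin_cases i <;> first | exact absurd rfl hki | skip
  all_goals fin_cases j <;> first | exact absurd rfl hkj | exact absurd rfl hij | skip
  all_goals simp [cc, det2, hb]
  intro h5; apply hb; linear_combination -h5

lemma vw_ne (k : Fin 3) : vw b t k ≠ 0 := by
  intro h0
  have h1 := congrArg Prod.fst h0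
  fin_cases k <;> simp [vw] at h1

lemma vw_det (h : OK b t) (k l : Fin 3) (hkl : k ≠ l) : det2 (vw b t k) (vw b t l) ≠ 0 := by
  have h1 := sub_ne_zero.2 h.b1
  have h2 := h.t0
  have h3 := sub_ne_zero.2 h.tb1
  have h4 := sub_ne_zero.2 h.tb1.symm
  have h1' := sub_ne_zero.2 h.b1.symm
  fin_cases k <;> fin_cases l <;> first | exact absurd rfl hkl | skip
  all_goals simp [vw, det2]
  · exact h1
  · exact h2
  · intro h5; apply h1; linear_combination -h5
  · exact h3
  · exact h2
  · intro h5; apply h3; linear_combination -h5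

lemma not_dvd (h : OK b t) {i j : Fin 4} (hij : (i = 0 ∧ j = 2) ∨ (i = 0 ∧ j = 3) ∨
    (i = 1 ∧ j = 2) ∨ (i = 1 ∧ j = 3)) : ¬ lin (cc b i - cc b j) ∣ gg (vw b t) := by
  intro hd
  have hij' : i ≠ j := by
    rcases hij with ⟨rfl, rfl⟩ | ⟨rfl, rfl⟩ | ⟨rfl, rfl⟩ | ⟨rfl, rfl⟩ <;> decide
  have hp : Prime (lin (cc b i - cc b j)) :=
    lin_prime (sub_ne_zero.2 fun e => hij' (cc_inj h e))
  obtain ⟨k, _, hk⟩ := (hp.dvd_finsetProd_iff _).1 hd
  have h0 := det2_eq_zero_of_dvd hk
  have hb := h.b0
  have ht1 := h.t1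
  have htb := h.tb
  rcases hij with ⟨rfl, rfl⟩ | ⟨rfl, rfl⟩ | ⟨rfl, rfl⟩ | ⟨rfl, rfl⟩
  · fin_cases k <;> simp [vw, cc, det2] at h0
  · fin_cases k <;> simp [vw, cc, det2] at h0
    · exact hb h0
    · apply htb; linear_combination -h0
  · fin_cases k <;> simp [vw, cc, det2] at h0
    · exact hb h0
    · apply ht1; linear_combination h0
  · fin_cases k <;> simp [vw, cc, det2] at h0
    · exact hb h0
    · exact hb h0
    · exact hb h0

lemma dvd01 : lin (cc b 0 - cc b 1) ∣ gg (vw b t) := by
  have h1 : lin (vw b t 0) ∣ gg (vw b t) :=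
    Finset.dvd_prod_of_mem (fun k => lin (vw b t k)) (Finset.mem_univ 0)
  have h2 : lin (cc b 0 - cc b 1) = - lin (vw b t 0) := by
    simp [lin, cc, vw]
  rw [h2, neg_dvd]
  exact h1

lemma dvd23 : lin (cc b 2 - cc b 3) ∣ gg (vw b t) := by
  have h1 : lin (vw b t 1) ∣ gg (vw b t) :=
    Finset.dvd_prod_of_mem (fun k => lin (vw b t k)) (Finset.mem_univ 1)
  have h2 : lin (cc b 2 - cc b 3) = - lin (vw b t 1) := by
    simp [lin, cc, vw]
    ring
  rw [h2, neg_dvd]
  exact h1

/-- the first conic -/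
noncomputable def q1 (b : K) : MvPolynomial (Fin 3) K := ell (cc b 0) * ell (cc b 1)

/-- the second conic -/
noncomputable def q2 (b : K) : MvPolynomial (Fin 3) K := ell (cc b 2) * ell (cc b 3)

lemma q1_homog : (q1 b).IsHomogeneous 2 := (ell_homog _).mul (ell_homog _)
lemma q2_homog : (q2 b).IsHomogeneous 2 := (ell_homog _).mul (ell_homog _)
lemma q1_ne : q1 b ≠ 0 := mul_ne_zero (ell_ne_zero _) (ell_ne_zero _)
lemma q2_ne : q2 b ≠ 0 := mul_ne_zero (ell_ne_zero _) (ell_ne_zero _)

lemma rho_q1 (i : Fin 4) : rho (cc b i) (q1 b) =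
    lin (cc b i - cc b 0) * lin (cc b i - cc b 1) := by
  rw [q1, map_mul, rho_ell, rho_ell]

lemma rho_q2 (i : Fin 4) : rho (cc b i) (q2 b) =
    lin (cc b i - cc b 2) * lin (cc b i - cc b 3) := by
  rw [q2, map_mul, rho_ell, rho_ell]

lemma lin_zero : lin (0 : K × K) = 0 := by simp [lin]

lemma q12_relPrime (h : OK b t) : IsRelPrime (q1 b) (q2 b) := by
  have hc := cc_inj h
  have e : ∀ i j : Fin 4, i ≠ j → IsRelPrime (ell (cc b i)) (ell (cc b j)) := fun i j hij =>
    ell_relPrime fun h => hij (hc h)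
  exact IsRelPrime.mul_left
    (IsRelPrime.mul_right (e 0 2 (by decide)) (e 0 3 (by decide)))
    (IsRelPrime.mul_right (e 1 2 (by decide)) (e 1 3 (by decide)))

lemma flip_dvd' {i j : Fin 4} {q : MvPolynomial (Fin 3) K}
    (h : lin (cc b i - cc b j) ∣ rho (cc b i) q) : lin (cc b j - cc b i) ∣ rho (cc b j) q := by
  rw [lin_neg_dvd]
  have h1 := lin_dvd_rho_sub (cc b i) (cc b j) q
  have : rho (cc b j) q = rho (cc b i) q - (rho (cc b i) q - rho (cc b j) q) := by ring
  rw [this]
  exact dvd_sub h h1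

lemma pairs4 : ∀ i j : Fin 4, i ≠ j → (i = 0 ∧ j = 1) ∨ (i = 1 ∧ j = 0) ∨ (i = 2 ∧ j = 3) ∨
    (i = 3 ∧ j = 2) ∨ (i = 0 ∧ j = 2) ∨ (i = 0 ∧ j = 3) ∨ (i = 1 ∧ j = 2) ∨ (i = 1 ∧ j = 3) ∨
    (i = 2 ∧ j = 0) ∨ (i = 3 ∧ j = 0) ∨ (i = 2 ∧ j = 1) ∨ (i = 3 ∧ j = 1) := by decide

lemma adm4 (h : OK b t) (q : MvPolynomial (Fin 3) K) :
    Adm (cc b) (vw b t) q ↔
      (lin (cc b 2 - cc b 0) ∣ rho (cc b 2) q ∧ lin (cc b 2 - cc b 1) ∣ rho (cc b 2) q) ∧
      (lin (cc b 3 - cc b 0) ∣ rho (cc b 3) q ∧ lin (cc b 3 - cc b 1) ∣ rho (cc b 3) q) := by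
  constructor
  · intro hq
    exact ⟨⟨flip_dvd' (hq 0 2 (by decide) (not_dvd h (by simp))),
      flip_dvd' (hq 1 2 (by decide) (not_dvd h (by simp)))⟩,
      flip_dvd' (hq 0 3 (by decide) (not_dvd h (by simp))),
      flip_dvd' (hq 1 3 (by decide) (not_dvd h (by simp)))⟩
  · rintro ⟨⟨h20, h21⟩, h30, h31⟩ i j hij hn
    rcases pairs4 i j hij with ⟨rfl, rfl⟩ | ⟨rfl, rfl⟩ | ⟨rfl, rfl⟩ | ⟨rfl, rfl⟩ | ⟨rfl, rfl⟩ |
      ⟨rfl, rfl⟩ | ⟨rfl, rfl⟩ | ⟨rfl, rfl⟩ | ⟨rfl, rfl⟩ | ⟨rfl, rfl⟩ | ⟨rfl, rfl⟩ | ⟨rfl, rfl⟩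
    · exact absurd dvd01 hn
    · exact absurd (lin_neg_dvd.1 dvd01) hn
    · exact absurd dvd23 hn
    · exact absurd (lin_neg_dvd.1 dvd23) hn
    · exact flip_dvd' h20
    · exact flip_dvd' h30
    · exact flip_dvd' h21
    · exact flip_dvd' h31
    · exact h20
    · exact h30
    · exact h21
    · exact h31

lemma two_points (h : OK b t) {i : Fin 4} (h0 : i ≠ 0) (h1 : i ≠ 1) {q : MvPolynomial (Fin 3) K}
    (d0 : lin (cc b i - cc b 0) ∣ rho (cc b i) q) (d1 : lin (cc b i - cc b 1) ∣ rho (cc b i) q) :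
    ∃ f, rho (cc b i) q = rho (cc b i) (q1 b * f) := by
  have hr : IsRelPrime (lin (cc b i - cc b 0)) (lin (cc b i - cc b 1)) :=
    lin_relPrime (cc_gen h i 0 1 h0 h1 (by decide))
  obtain ⟨f, hf⟩ := hr.mul_dvd d0 d1
  refine ⟨f, ?_⟩
  have h2 := congrArg (rho (cc b i)) hf
  rw [rho_rho, map_mul, ← rho_q1, rho_rho] at h2
  rw [h2, map_mul]

lemma ci4 (h : OK b t) : IsCI (cc b) (vw b t) (q1 b) (q2 b) 2 2 := by
  refine ⟨fun q => ?_, q1_homog, q2_homog, ?_⟩
  · rw [adm4 h]
    constructor
    · rintro ⟨⟨h20, h21⟩, h30, h31⟩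
      obtain ⟨f2, hf2⟩ := two_points h (by decide) (by decide) h20 h21
      obtain ⟨f3, hf3⟩ := two_points h (by decide) (by decide) h30 h31
      have hcomp : lin (cc b 2 - cc b 3) ∣ rho (cc b 2) (f2 - f3) := by
        have e1 : lin (cc b 2 - cc b 3) ∣ rho (cc b 2) (q1 b) * rho (cc b 2) (f2 - f3) := by
          have d1 := lin_dvd_rho_sub (cc b 2) (cc b 3) q
          have d2 := lin_dvd_rho_sub (cc b 2) (cc b 3) (q1 b * f3)
          rw [hf2, hf3] at d1
          have : rho (cc b 2) (q1 b) * rho (cc b 2) (f2 - f3) =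
              (rho (cc b 2) (q1 b * f2) - rho (cc b 3) (q1 b * f3)) -
              (rho (cc b 2) (q1 b * f3) - rho (cc b 3) (q1 b * f3)) := by
            simp only [map_mul, map_sub]
            ring
          rw [this]
          exact dvd_sub d1 d2
        have hr : IsRelPrime (lin (cc b 2 - cc b 3)) (rho (cc b 2) (q1 b)) := by
          rw [rho_q1]
          exact IsRelPrime.mul_right
            (lin_relPrime (cc_gen h 2 3 0 (by decide) (by decide) (by decide)))
            (lin_relPrime (cc_gen h 2 3 1 (by decide) (by decide) (by decide)))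
        exact hr.dvd_of_dvd_mul_left e1
      obtain ⟨a, ha⟩ := interp ({2, 3} : Finset (Fin 4)) (cc b)
        (fun k _ i _ j _ => cc_gen h k i j) (fun i => if i = 2 then f2 else f3) (by
          intro i hi j hj hij
          simp only [Finset.mem_insert, Finset.mem_singleton] at hi hj
          rcases hi with rfl | rfl
          · rcases hj with rfl | rfl
            · exact absurd rfl hij
            · simpa using hcomp
          · rcases hj with rfl | rfl
            · have h5 := flip_dvd' hcomp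
              have e : (fun i : Fin 4 => if i = 2 then f2 else f3) 3 -
                  (fun i : Fin 4 => if i = 2 then f2 else f3) 2 = -(f2 - f3) := by
                simp
              rw [e, map_neg, dvd_neg]
              exact h5
            · exact absurd rfl hij)
      have ha2 := ha 2 (by simp)
      have ha3 := ha 3 (by simp)
      simp only [if_true] at ha2
      have e32 : ¬ ((3 : Fin 4) = 2) := by decide
      simp only [if_neg e32] at ha3
      have hd : q2 b ∣ q - a * q1 b := by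
        refine (ell_relPrime fun h' => by have := cc_inj h h'; exact absurd this (by decide)).mul_dvd
          ?_ ?_
        · rw [ell_dvd_iff, map_sub, hf2, map_mul, map_mul, ha2]; ring
        · rw [ell_dvd_iff, map_sub, hf3, map_mul, map_mul, ha3]; ring
      obtain ⟨k, hk⟩ := hd
      exact ⟨a, k, by linear_combination hk⟩
    · rintro ⟨a, k, rfl⟩
      simp only [map_add, map_mul, rho_q1, rho_q2, sub_self, lin_zero, zero_mul, mul_zero,
        add_zero]
      refine ⟨⟨?_, ?_⟩, ?_, ?_⟩
      · exact dvd_mul_of_dvd_right (dvd_mul_right _ _) _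
      · exact dvd_mul_of_dvd_right (dvd_mul_left _ _) _
      · exact dvd_mul_of_dvd_right (dvd_mul_right _ _) _
      · exact dvd_mul_of_dvd_right (dvd_mul_left _ _) _
  · intro a k hak
    have h1 : q2 b ∣ a * q1 b := ⟨-k, by linear_combination hak⟩
    obtain ⟨f, hf⟩ := (q12_relPrime h).symm.dvd_of_dvd_mul_right h1
    refine ⟨f, by rw [hf]; ring, ?_⟩
    have : q2 b * k = q2 b * (-(f * q1 b)) := by
      rw [hf] at hak
      linear_combination hak
    exact mul_left_cancel₀ q2_ne this

/-! ### the link with the arrangement -/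

lemma linearForm_left (k : Fin 3) : linearForm (AA b t (Fin.castAdd 4 k)) = lin (vw b t k) := by
  simp [linearForm, AA, lin, Fin.sum_univ_three]

lemma linearForm_right (i : Fin 4) : linearForm (AA b t (Fin.natAdd 3 i)) = ell (cc b i) := by
  simp [linearForm, AA, ell, lin, Fin.sum_univ_three]
  ring

lemma defPoly_AA : defPoly (AA b t) = gg (vw b t) * hh (cc b) := by
  rw [defPoly, Fin.prod_univ_add]
  simp only [linearForm_left, linearForm_right]
  rfl

lemma mem_logDer_AA (θ : Der3 K) :
    θ ∈ logDer (AA b t) ↔ IsLog (cc b) (vw b t) (fun j => θ (X j)) := by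
  have hl' : ∀ k : Fin 3, θ (linearForm (AA b t (Fin.castAdd 4 k))) =
      C (vw b t k).1 * θ (X 0) + C (vw b t k).2 * θ (X 1) := by
    intro k
    rw [der_linearForm]
    simp [AA, Fin.sum_univ_three]
  have he' : ∀ i : Fin 4, θ (linearForm (AA b t (Fin.natAdd 3 i))) =
      θ (X 2) - C (cc b i).1 * θ (X 0) - C (cc b i).2 * θ (X 1) := by
    intro i
    rw [der_linearForm]
    simp [AA, Fin.sum_univ_three]
    ring
  constructor
  · intro h
    refine ⟨fun i => ?_, fun k => ?_⟩
    · rw [← linearForm_right (t := t), ← he']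
      exact h _
    · rw [← linearForm_left, ← hl']
      exact h _
  · rintro ⟨h1, h2⟩ i
    induction i using Fin.addCases with
    | left k => rw [hl', linearForm_left]; exact h2 k
    | right i => rw [he', linearForm_right]; exact h1 i

lemma mk_mem_AA (θ : Fin 3 → MvPolynomial (Fin 3) K) :
    mk θ ∈ logDer (AA b t) ↔ IsLog (cc b) (vw b t) θ := by
  rw [mem_logDer_AA]
  have : (fun j => mk θ (X j)) = θ := by funext j; exact mk_X θ j
  rw [this]

lemma arr_AA (h : OK b t) : IsArrangement (AA b t) := by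
  refine ⟨fun i => ?_, fun i j hij => ?_⟩
  · intro h0
    induction i using Fin.addCases with
    | left i =>
      have e0 := congrFun h0 0
      have e1 := congrFun h0 1
      simp [AA] at e0 e1
      exact vw_ne i (Prod.ext e0 e1)
    | right i =>
      have e2 := congrFun h0 2
      simp [AA] at e2
  · have hij' := hyperplane_le hij
    clear hij
    by_contra hne
    induction i using Fin.addCases with
    | left i =>
      induction j using Fin.addCases with
      | left j =>
        have hne' : i ≠ j := fun e => hne (by rw [e])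
        have := hij'.1
        simp [AA] at this
        exact vw_det h i j hne' (by simp only [det2]; linear_combination this)
      | right j =>
        have e1 := hij'.2.1
        have e2 := hij'.2.2
        simp [AA] at e1 e2
        exact vw_ne i (Prod.ext e1 e2)
    | right i =>
      induction j using Fin.addCases with
      | left j =>
        have e1 := hij'.2.1
        have e2 := hij'.2.2
        simp [AA] at e1 e2
        exact vw_ne j (Prod.ext e1 e2)
      | right j =>
        have hne' : i ≠ j := fun e => hne (by rw [e])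
        have e1 := hij'.2.1
        have e2 := hij'.2.2
        simp [AA] at e1 e2
        exact hne' (cc_inj h (Prod.ext (by linear_combination -e1) (by linear_combination -e2)))

end Pool.Agent.Q39.RS
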