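import Pool.Agent.Q39.SP.Defs

set_option autoImplicit false

/-!
# Definitions for the resolution shape of logarithmic derivations
-/

namespace Pool.Agent.Q39.RS

open MvPolynomial Pool.Agent.Q39.POG Pool.Agent.Q39.SP

variable {K : Type} [Field K] {l n : ℕ}

/-- The projective dimension of the `S`-module `D(A)`. -/
noncomputable def pd (A : Fin n → Fin l → K) : WithBot ℕ∞ :=
  CategoryTheory.projectiveDimension (ModuleCat.of (MvPolynomial (Fin l) K) (logDer A))

/-- The hypotheses (H), for homogeneous `θ_1, …, θ_{l+1}` in `D(A)` and the polynomials `g_i` with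
`(-1)^i det M_i = g_i Q` (the index `i : Fin (l + 1)` starts at `0`): `g_{l+1} ≠ 0`; the polynomials
`g_1, …, g_l` are homogeneous of positive degree, and they are not zero; they have no non-trivial
common divisor modulo `g_{l+1}`; and `pd D(A) = 1`. -/
structure HypH (A : Fin n → Fin l → K)
    (θ : Fin (l + 1) → Derivation K (MvPolynomial (Fin l) K) (MvPolynomial (Fin l) K))
    (g : Fin (l + 1) → MvPolynomial (Fin l) K) : Prop where
  mem : ∀ i, θ i ∈ logDer A
  homog : ∀ i, ∃ p, IsHomogeneousDer (θ i) p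
  cof : ∀ i : Fin (l + 1), (-1) ^ ((i : ℕ) + 1) * (minorMatrix θ i).det = g i * defPoly A
  last : g (Fin.last l) ≠ 0
  pos : ∀ i : Fin l, g i.castSucc ≠ 0 ∧ IsPosHomogeneous (g i.castSucc)
  coprime : ¬ ∃ h : MvPolynomial (Fin l) K, IsPosHomogeneous h ∧
    ∀ i : Fin l, g i.castSucc ∈ Ideal.span {h, g (Fin.last l)}
  pd_eq : pd A = 1

/-- `D(A)` has a graded minimal free resolution
`0 → ⨁_{l < k ≤ p} S[-d_k-1] → ⨁_{1 ≤ i ≤ p} S[-d_i] → D(A) → 0`
(here the indices start at `0`): homogeneous `η_i` of degree `d_i` generate `D(A)`; the relations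
between them are the unique linear combinations of the relations `∑ i, R_k i * η_i = 0`, one for
each `k` with `l ≤ k < p`; the coefficient `R_k i` is zero or homogeneous of degree
`d_k + 1 - d_i ≥ 1`. -/
def HasShape (A : Fin n → Fin l → K) (p : ℕ) (d : Fin p → ℕ) : Prop :=
  ∃ (η : Fin p → Derivation K (MvPolynomial (Fin l) K) (MvPolynomial (Fin l) K))
    (R : {k : Fin p // l ≤ (k : ℕ)} → Fin p → MvPolynomial (Fin l) K),
    (∀ i, IsHomogeneousDer (η i) (d i)) ∧
    Submodule.span (MvPolynomial (Fin l) K) (Set.range η) = logDer A ∧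
    (∀ k i, R k i = 0 ∨ ∃ t : ℕ, 1 ≤ t ∧ d i + t = d k.1 + 1 ∧ (R k i).IsHomogeneous t) ∧
    (∀ k, ∑ i, R k i • η i = 0) ∧
    ∀ f : Fin p → MvPolynomial (Fin l) K, ∑ i, f i • η i = 0 →
      ∃! a : {k : Fin p // l ≤ (k : ℕ)} → MvPolynomial (Fin l) K,
        ∀ i, f i = ∑ k, a k * R k i

end Pool.Agent.Q39.RS
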