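import Mathlib

set_option autoImplicit false

/-!
# Modules with one relation have projective dimension one
-/

namespace Pool.Agent.Q39.RS

open CategoryTheory

/-- the short exact sequence of modules attached to an exact pair of linear maps -/
lemma ses {S : Type} [CommRing S] {N Q M : Type} [AddCommGroup N] [AddCommGroup Q] [AddCommGroup M]
    [Module S N] [Module S Q] [Module S M]
    (f : N →ₗ[S] Q) (g : Q →ₗ[S] M) (hf : Function.Injective f) (hg : Function.Surjective g)
    (hfg : LinearMap.range f = LinearMap.ker g) :
    (ShortComplex.mk (ModuleCat.ofHom f) (ModuleCat.ofHom g) (by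
      ext x
      have : f x ∈ LinearMap.ker g := hfg ▸ LinearMap.mem_range_self f x
      exact this)).ShortExact where
  exact := by
    rw [ShortComplex.ShortExact.moduleCat_exact_iff_function_exact]
    exact LinearMap.exact_iff.2 hfg.symm
  mono_f := (ModuleCat.mono_iff_injective _).2 hf
  epi_g := (ModuleCat.epi_iff_surjective _).2 hg

theorem pd_eq_one {S : Type} [CommRing S] {M : Type} [AddCommGroup M] [Module S M] {n : ℕ}
    (g : (Fin n → S) →ₗ[S] M) (hg : Function.Surjective g) (r : Fin n → S)
    (hker : ∀ x, g x = 0 ↔ ∃ a : S, x = a • r) (hinj : ∀ a : S, a • r = 0 → a = 0)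
    (hmin : ∀ φ : (Fin n → S) →ₗ[S] S, φ r ≠ 1) :
    projectiveDimension (ModuleCat.of S M) = 1 := by
  set f : S →ₗ[S] (Fin n → S) := LinearMap.toSpanSingleton S (Fin n → S) r with hf
  have hfi : Function.Injective f := by
    rw [← LinearMap.ker_eq_bot, LinearMap.ker_eq_bot']
    exact fun a ha => hinj a ha
  have hfg : LinearMap.range f = LinearMap.ker g := by
    ext x
    rw [LinearMap.mem_ker, hker]
    constructor
    · rintro ⟨a, rfl⟩; exact ⟨a, rfl⟩
    · rintro ⟨a, rfl⟩; exact ⟨a, rfl⟩
  have hS := ses f g hfi hg hfg
  apply le_antisymm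
  · have : projectiveDimension (ModuleCat.of S M) ≤ ((1 : ℕ) : WithBot ℕ∞) := by
      rw [projectiveDimension_le_iff]
      have h1 : HasProjectiveDimensionLT (ModuleCat.of S S) 1 := inferInstance
      have h2 : HasProjectiveDimensionLT (ModuleCat.of S (Fin n → S)) (1 + 1) := inferInstance
      exact hS.hasProjectiveDimensionLT_X₃ 1 h1 h2
    simpa using this
  · have : ((1 : ℕ) : WithBot ℕ∞) ≤ projectiveDimension (ModuleCat.of S M) := by
      rw [projectiveDimension_ge_iff]
      intro hlt
      have hp : Projective (ModuleCat.of S M) := projective_iff_hasProjectiveDimensionLT_one.2 hlt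
      have hp' : Module.Projective S M := (IsProjective.iff_projective M).2 hp
      obtain ⟨s, hs⟩ := Module.projective_lifting_property g (LinearMap.id : M →ₗ[S] M) hg
      have hs' : ∀ x, g (s x) = x := fun x => LinearMap.congr_fun hs x
      have key : ∀ x : Fin n → S, ∃ a : S, x - s (g x) = a • r := fun x =>
        (hker _).1 (by rw [map_sub, hs', sub_self])
      choose φ hφ using key
      have huniq : ∀ a b : S, a • r = b • r → a = b := fun a b h => by
        have := hinj (a - b) (by rw [sub_smul, h, sub_self])
        exact sub_eq_zero.1 this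
      refine hmin ⟨⟨φ, fun x y => huniq _ _ ?_⟩, fun c x => huniq _ _ ?_⟩ (huniq _ _ ?_)
      · rw [add_smul, ← hφ, ← hφ, ← hφ, map_add, map_add]
        abel
      · simp only [RingHom.id_apply, smul_eq_mul]
        rw [mul_smul, ← hφ, ← hφ, map_smul, map_smul, smul_sub]
      · change φ r • r = (1 : S) • r
        rw [← hφ, (hker r).2 ⟨1, by rw [one_smul]⟩, map_zero, sub_zero, one_smul]
    simpa using this

end Pool.Agent.Q39.RS
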