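import Pool.Agent.Q39.RS.Defs
import Pool.Agent.Q39.POG.Grade

set_option autoImplicit false

/-!
# Modules with generators of degrees `1, 4, 4, 4` and one relation with quadratic coefficients
-/

namespace Pool.Agent.Q39.RS

open MvPolynomial Pool.Agent.Q39.POG Pool.Agent.Q39.SP

variable {K : Type} [Field K] {n : ℕ}

/-- derivations of `K[x, y, z]` -/
abbrev D3 (K : Type) [Field K] : Type :=
  Derivation K (MvPolynomial (Fin 3) K) (MvPolynomial (Fin 3) K)

lemma sum_smul_apply {ι : Type} (s : Finset ι) (f : ι → MvPolynomial (Fin 3) K) (θ : ι → D3 K)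
    (F : MvPolynomial (Fin 3) K) : (∑ i ∈ s, f i • θ i) F = ∑ i ∈ s, f i * θ i F := by
  classical
  induction s using Finset.induction_on with
  | empty => simp
  | insert i s hi ih =>
    rw [Finset.sum_insert hi, Finset.sum_insert hi, Derivation.add_apply, ih,
      Derivation.smul_apply, smul_eq_mul]

/-- homogeneous representations -/
lemma rep_homog {N : ℕ} {ε : Fin N → D3 K} {e : Fin N → ℕ}
    (hε : ∀ j, IsHomogeneousDer (ε j) (e j)) {θ : D3 K} {t : ℕ} (hθ : IsHomogeneousDer θ t)
    {a : Fin N → MvPolynomial (Fin 3) K} (ha : θ = ∑ j, a j • ε j) :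
    ∃ a' : Fin N → MvPolynomial (Fin 3) K, θ = ∑ j, a' j • ε j ∧
      ∀ j, a' j = 0 ∨ (e j ≤ t ∧ (a' j).IsHomogeneous (t - e j)) := by
  refine ⟨fun j => if e j ≤ t then homogeneousComponent (t - e j) (a j) else 0, ?_, fun j => ?_⟩
  · apply MvPolynomial.derivation_ext
    intro x
    rw [sum_smul_apply]
    have h1 : θ (X x) = homogeneousComponent t (θ (X x)) := by
      rw [homogeneousComponent_of_mem (hθ x), if_pos rfl]
    rw [h1, ha, sum_smul_apply, map_sum]
    refine Finset.sum_congr rfl fun j _ => ?_
    by_cases h : e j ≤ t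
    · simp only [if_pos h]
      obtain ⟨s, rfl⟩ : ∃ s, t = s + e j := ⟨t - e j, by omega⟩
      rw [comp_mul_homog _ _ (hε j x), Nat.add_sub_cancel]
    · simp only [if_neg h]
      rw [comp_mul_homog_low _ _ (hε j x) (by omega), zero_mul]
  · by_cases h : e j ≤ t
    · right
      simp only [if_pos h]
      exact ⟨h, homogeneousComponent_isHomogeneous _ _⟩
    · left
      simp only [if_neg h]

lemma constCoeff_of_homog {p : MvPolynomial (Fin 3) K} {t : ℕ} (ht : 1 ≤ t)
    (h : p.IsHomogeneous t) : constantCoeff p = 0 := by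
  rw [constantCoeff_eq]
  by_contra hne
  have := h hne
  simp at this
  omega

theorem no_shape {A : Fin n → Fin 3 → K} (ε : Fin 4 → D3 K)
    (hε : ∀ j, IsHomogeneousDer (ε j) ((![1, 4, 4, 4] : Fin 4 → ℕ) j))
    (hspan : Submodule.span (MvPolynomial (Fin 3) K) (Set.range ε) = logDer A)
    (r : Fin 4 → MvPolynomial (Fin 3) K) (hr0 : ∀ j, constantCoeff (r j) = 0)
    (hr3 : (r 3).IsHomogeneous 2) (hr3' : r 3 ≠ 0)
    (hrel : ∀ f : Fin 4 → MvPolynomial (Fin 3) K, ∑ j, f j • ε j = 0 → ∃ k, ∀ j, f j = k * r j)
    (p : ℕ) (d : Fin p → ℕ) : ¬ HasShape A p d := by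
  classical
  rintro ⟨η, R, hη, hspan', hR, hR0, huniq⟩
  -- the transition matrices
  have ha : ∀ i, ∃ a : Fin 4 → MvPolynomial (Fin 3) K, η i = ∑ j, a j • ε j ∧
      ∀ j, a j = 0 ∨ ((![1, 4, 4, 4] : Fin 4 → ℕ) j ≤ d i ∧
        (a j).IsHomogeneous (d i - (![1, 4, 4, 4] : Fin 4 → ℕ) j)) := by
    intro i
    have h1 : η i ∈ Submodule.span (MvPolynomial (Fin 3) K) (Set.range ε) := by
      rw [hspan, ← hspan']
      exact Submodule.subset_span ⟨i, rfl⟩
    obtain ⟨c, hc⟩ := (Submodule.mem_span_range_iff_exists_fun _).1 h1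
    exact rep_homog hε (hη i) hc.symm
  choose a ha1 ha2 using ha
  have hb : ∀ j, ∃ b : Fin p → MvPolynomial (Fin 3) K, ε j = ∑ i, b i • η i := by
    intro j
    have h1 : ε j ∈ Submodule.span (MvPolynomial (Fin 3) K) (Set.range η) := by
      rw [hspan', ← hspan]
      exact Submodule.subset_span ⟨j, rfl⟩
    obtain ⟨c, hc⟩ := (Submodule.mem_span_range_iff_exists_fun _).1 h1
    exact ⟨c, hc.symm⟩
  choose b hb using hb
  have hc0 : ∀ k i, constantCoeff (R k i) = 0 := by
    intro k i
    rcases hR k i with h | ⟨t, ht, _, h⟩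
    · rw [h, map_zero]
    · exact constCoeff_of_homog ht h
  have hrη : ∀ f : Fin p → MvPolynomial (Fin 3) K, ∑ i, f i • η i = 0 →
      ∀ i, constantCoeff (f i) = 0 := by
    intro f hf i
    obtain ⟨c, hc, -⟩ := huniq f hf
    rw [hc i, map_sum]
    refine Finset.sum_eq_zero fun k _ => ?_
    rw [map_mul, hc0, mul_zero]
  have hrε : ∀ f : Fin 4 → MvPolynomial (Fin 3) K, ∑ j, f j • ε j = 0 →
      ∀ j, constantCoeff (f j) = 0 := by
    intro f hf j
    obtain ⟨k, hk⟩ := hrel f hf
    rw [hk j, map_mul, hr0, mul_zero]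
  -- change of generators
  have swap1 : ∀ f : Fin p → MvPolynomial (Fin 3) K,
      ∑ i, f i • η i = ∑ j, (∑ i, f i * a i j) • ε j := by
    intro f
    simp only [Finset.sum_smul]
    rw [Finset.sum_comm]
    refine Finset.sum_congr rfl fun i _ => ?_
    conv_lhs => rw [ha1 i, Finset.smul_sum]
    refine Finset.sum_congr rfl fun j _ => ?_
    rw [smul_smul]
  have swap2 : ∀ f : Fin 4 → MvPolynomial (Fin 3) K,
      ∑ j, f j • ε j = ∑ i, (∑ j, f j * b j i) • η i := by
    intro f
    simp only [Finset.sum_smul]
    rw [Finset.sum_comm]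
    refine Finset.sum_congr rfl fun j _ => ?_
    conv_lhs => rw [hb j, Finset.smul_sum]
    refine Finset.sum_congr rfl fun i _ => ?_
    rw [smul_smul]
  have hAB : ∀ i i', constantCoeff (∑ j, a i j * b j i') = if i = i' then 1 else 0 := by
    intro i i'
    have h1 : ∑ i', ((∑ j, a i j * b j i') - if i = i' then 1 else 0) • η i' = 0 := by
      have h2 : ∑ i', ((∑ j, a i j * b j i') - if i = i' then 1 else 0) • η i' =
          ∑ i', (∑ j, a i j * b j i') • η i' - η i := by
        rw [← sub_eq_zero]
        have : ∀ i', ((∑ j, a i j * b j i') - if i = i' then 1 else 0) • η i' =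
            (∑ j, a i j * b j i') • η i' - (if i = i' then η i' else 0) := by
          intro i'
          apply MvPolynomial.derivation_ext
          intro x
          by_cases h : i = i'
          · simp only [if_pos h, Derivation.smul_apply, Derivation.sub_apply, smul_eq_mul]
            ring
          · simp only [if_neg h, Derivation.smul_apply, Derivation.sub_apply, smul_eq_mul,
              Derivation.zero_apply]
            ring
        rw [Finset.sum_congr rfl fun i' _ => this i', Finset.sum_sub_distrib, Finset.sum_ite_eq,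
          if_pos (Finset.mem_univ i), sub_self]
      rw [h2, ← swap2, ← ha1, sub_self]
    have h3 := hrη _ h1 i'
    rw [map_sub, sub_eq_zero] at h3
    rw [h3]
    split_ifs <;> simp
  have hBA : ∀ j j', constantCoeff (∑ i, b j i * a i j') = if j = j' then 1 else 0 := by
    intro j j'
    have h1 : ∑ j', ((∑ i, b j i * a i j') - if j = j' then 1 else 0) • ε j' = 0 := by
      have h2 : ∑ j', ((∑ i, b j i * a i j') - if j = j' then 1 else 0) • ε j' =
          ∑ j', (∑ i, b j i * a i j') • ε j' - ε j := by
        rw [← sub_eq_zero]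
        have : ∀ j', ((∑ i, b j i * a i j') - if j = j' then 1 else 0) • ε j' =
            (∑ i, b j i * a i j') • ε j' - (if j = j' then ε j' else 0) := by
          intro j'
          apply MvPolynomial.derivation_ext
          intro x
          by_cases h : j = j'
          · simp only [if_pos h, Derivation.smul_apply, Derivation.sub_apply, smul_eq_mul]
            ring
          · simp only [if_neg h, Derivation.smul_apply, Derivation.sub_apply, smul_eq_mul,
              Derivation.zero_apply]
            ring
        rw [Finset.sum_congr rfl fun j' _ => this j', Finset.sum_sub_distrib, Finset.sum_ite_eq,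
          if_pos (Finset.mem_univ j), sub_self]
      rw [h2, ← swap1, ← hb, sub_self]
    have h3 := hrε _ h1 j'
    rw [map_sub, sub_eq_zero] at h3
    rw [h3]
    split_ifs <;> simp
  by_cases hp : ∃ k : Fin p, 3 ≤ (k : ℕ)
  · obtain ⟨k, hk⟩ := hp
    by_cases hd : 5 ≤ d k
    · -- `η_k` is a combination with coefficients without constant term
      have h1 := hAB k k
      rw [if_pos rfl, map_sum] at h1
      rw [Finset.sum_eq_zero] at h1
      · exact zero_ne_one h1
      · intro j _
        rw [map_mul]
        rcases ha2 k j with h | ⟨h, h'⟩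
        · rw [h, map_zero, zero_mul]
        · rw [constCoeff_of_homog ?_ h', zero_mul]
          fin_cases j <;> simp <;> omega
    · -- the relation `R_k` is too short
      have h1 : ∑ j, (∑ i, R ⟨k, hk⟩ i * a i j) • ε j = 0 := by
        rw [← swap1]; exact hR0 _
      obtain ⟨κ, hκ⟩ := hrel _ h1
      have h3 : (∑ i, R ⟨k, hk⟩ i * a i 3).IsHomogeneous (d k - 3) := by
        refine IsHomogeneous.sum _ _ _ fun i _ => ?_
        rcases hR ⟨k, hk⟩ i with h | ⟨t, ht, ht2, h⟩
        · rw [h, zero_mul]; exact isHomogeneous_zero _ _ _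
        rcases ha2 i 3 with h' | ⟨h', h''⟩
        · rw [h', mul_zero]; exact isHomogeneous_zero _ _ _
        have := h.mul h''
        have e1 : t + (d i - (![1, 4, 4, 4] : Fin 4 → ℕ) 3) = d k - 3 := by
          simp at h' ⊢
          simp at ht2
          omega
        rwa [e1] at this
      have hκ0 : κ = 0 := by
        by_contra hne
        have h4 : κ * r 3 ≠ 0 := mul_ne_zero hne hr3'
        have h5 := h3.totalDegree (by rw [hκ 3]; exact h4)
        rw [hκ 3, totalDegree_mul_of_isDomain hne hr3', hr3.totalDegree hr3'] at h5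
        omega
      have h6 : ∀ j, ∑ i, R ⟨k, hk⟩ i * a i j = 0 := fun j => by rw [hκ j, hκ0, zero_mul]
      -- multiply with the matrix of the `b`
      set M : Matrix (Fin p) (Fin p) (MvPolynomial (Fin 3) K) :=
        Matrix.of fun i i' => ∑ j, a i j * b j i' with hM
      have hdet : M.det ≠ 0 := by
        intro h0
        have h7 : constantCoeff M.det = 1 := by
          rw [RingHom.map_det]
          have : (constantCoeff (R := K) (σ := Fin 3)).mapMatrix M = 1 := by
            ext i i'
            simp only [hM, RingHom.mapMatrix_apply, Matrix.map_apply, Matrix.of_apply, hAB,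
              Matrix.one_apply]
          rw [this, Matrix.det_one]
        rw [h0, map_zero] at h7
        exact zero_ne_one h7
      have hv : Matrix.vecMul (R ⟨k, hk⟩) M = 0 := by
        funext i'
        simp only [Matrix.vecMul, dotProduct, hM, Matrix.of_apply, Pi.zero_apply, Finset.mul_sum]
        rw [Finset.sum_comm]
        refine Finset.sum_eq_zero fun j _ => ?_
        have : ∑ i, R ⟨k, hk⟩ i * (a i j * b j i') = (∑ i, R ⟨k, hk⟩ i * a i j) * b j i' := by
          rw [Finset.sum_mul]
          exact Finset.sum_congr rfl fun i _ => by ring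
        rw [this, h6, zero_mul]
      have hRk : R ⟨k, hk⟩ = 0 := Matrix.eq_zero_of_vecMul_eq_zero hdet hv
      obtain ⟨c, -, hc⟩ := huniq 0 (by simp)
      have e1 := hc 0 (by simp)
      have e2 := hc (Pi.single ⟨k, hk⟩ 1) (fun i => by
        rw [Finset.sum_eq_single ⟨k, hk⟩]
        · rw [hRk]; simp
        · intro k' _ hk'
          rw [Pi.single_eq_of_ne hk', zero_mul]
        · intro h; exact absurd (Finset.mem_univ _) h)
      have e3 := congrFun (e1.trans e2.symm) ⟨k, hk⟩
      simp at e3
  · -- at most three generators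
    push Not at hp
    have hp3 : p ≤ 3 := by
      by_contra hcon
      exact absurd (hp ⟨3, by omega⟩) (by simp)
    set B : Matrix (Fin 4) (Fin p) K := Matrix.of fun j i => constantCoeff (b j i) with hB
    set A' : Matrix (Fin p) (Fin 4) K := Matrix.of fun i j => constantCoeff (a i j) with hA'
    have h1 : B * A' = 1 := by
      ext j j'
      rw [Matrix.mul_apply, Matrix.one_apply, ← hBA j j', map_sum]
      refine Finset.sum_congr rfl fun i _ => ?_
      simp only [hB, hA', Matrix.of_apply, map_mul]
    have h2 := Matrix.rank_mul_le_left B A'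
    rw [h1, Matrix.rank_one, Fintype.card_fin] at h2
    have h3 := Matrix.rank_le_width B
    omega

end Pool.Agent.Q39.RS
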