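import Pool.Agent.Q39.RS.Config
import Pool.Agent.Q39.RS.Shape
import Pool.Agent.Q39.RS.Pd
import Pool.Agent.Q39.POG.CI
import Pool.Agent.Q39.SP.Gen

set_option autoImplicit false

/-!
# The counterexample
-/

namespace Pool.Agent.Q39.RS

open MvPolynomial Pool.Agent.Q39.POG Pool.Agent.Q39.SP

variable {K : Type} [Field K] {b t : K}

lemma hh_cc : hh (cc b) = q1 b * q2 b := by
  rw [hh, Fin.prod_univ_four, q1, q2]
  ring

/-- the parameter of a logarithmic vector field -/
lemma sol_of_isLog (h : OK b t) {p0 p1 q w : MvPolynomial (Fin 3) K} (hs : Sys (vw b t) p0 p1)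
    (hl : IsLog (cc b) (vw b t) (vD p0 p1 q w)) (i : Fin 4) :
    rho (cc b i) w = rho (cc b i) (q * phi p0 p1 (cc b i)) := by
  obtain ⟨e, q', w', e0, e1, e2, hw⟩ := (isLog_iff (cc b) vw_ne (vw_det h) hs _).1 hl
  simp [vD] at e0 e1 e2
  obtain ⟨r0, r1⟩ := rep_unique (vw_ne (b := b) (t := t)) hs (e := e) (q := q' - q)
    (by linear_combination -e0) (by linear_combination -e1)
  rw [sub_eq_zero] at r1
  rw [r0, zero_mul, zero_add] at e2
  rw [e2, ← r1]
  exact hw i

section

variable {p0 p1 w1 w2 e' : MvPolynomial (Fin 3) K}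

lemma e_not_dvd (h : OK b t) (hs : Sys (vw b t) p0 p1)
    (hrel : q2 b * w1 - q1 b * w2 = e' * hh (cc b))
    (l1 : IsLog (cc b) (vw b t) (vD p0 p1 (q1 b) w1))
    (l2 : IsLog (cc b) (vw b t) (vD p0 p1 (q2 b) w2)) {j : Fin 4} (hj : j = 2 ∨ j = 3) :
    ¬ lin (cc b 0 - cc b j) ∣ rho (cc b 0) e' := by
  have a1 := sol_of_isLog h hs l1
  have a2 := sol_of_isLog h hs l2
  have hinj := cc_inj h
  obtain ⟨s1, hs1⟩ : q1 b ∣ w1 := by
    refine (ell_relPrime fun h' => absurd (hinj h') (by decide)).mul_dvd ?_ ?_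
    · rw [ell_dvd_iff, a1, map_mul, rho_q1, sub_self, lin_zero]; ring
    · rw [ell_dvd_iff, a1, map_mul, rho_q1, sub_self, lin_zero]; ring
  obtain ⟨s2, hs2⟩ : q2 b ∣ w2 := by
    refine (ell_relPrime fun h' => absurd (hinj h') (by decide)).mul_dvd ?_ ?_
    · rw [ell_dvd_iff, a2, map_mul, rho_q2, sub_self, lin_zero]; ring
    · rw [ell_dvd_iff, a2, map_mul, rho_q2, sub_self, lin_zero]; ring
  have he : e' = s1 - s2 := by
    have h1 : (q1 b * q2 b) * e' = (q1 b * q2 b) * (s1 - s2) := by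
      rw [hh_cc, hs1, hs2] at hrel
      linear_combination -hrel
    exact mul_left_cancel₀ (mul_ne_zero q1_ne q2_ne) h1
  have hne : ∀ i k : Fin 4, i ≠ k → lin (cc b i - cc b k) ≠ 0 := fun i k hik =>
    lin_ne_zero (sub_ne_zero.2 fun h' => hik (hinj h'))
  have b1 : rho (cc b j) s1 = phi p0 p1 (cc b j) := by
    have h1 := a1 j
    rw [hs1, map_mul, map_mul, rho_phi hs] at h1
    refine mul_left_cancel₀ ?_ h1
    rw [rho_q1]
    rcases hj with rfl | rfl
    · exact mul_ne_zero (hne _ _ (by decide)) (hne _ _ (by decide))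
    · exact mul_ne_zero (hne _ _ (by decide)) (hne _ _ (by decide))
  have b2 : rho (cc b 0) s2 = phi p0 p1 (cc b 0) := by
    have h1 := a2 0
    rw [hs2, map_mul, map_mul, rho_phi hs] at h1
    refine mul_left_cancel₀ ?_ h1
    rw [rho_q2]
    exact mul_ne_zero (hne _ _ (by decide)) (hne _ _ (by decide))
  intro hd
  have h1 := lin_dvd_rho_sub (cc b 0) (cc b j) s1
  have h2 : lin (cc b 0 - cc b j) ∣ phi p0 p1 (cc b 0 - cc b j) := by
    have : phi p0 p1 (cc b 0 - cc b j) =
        (rho (cc b 0) s1 - rho (cc b j) s1) - rho (cc b 0) e' := by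
      rw [phi_sub, he, map_sub, b1, b2]
      ring
    rw [this]
    exact dvd_sub h1 hd
  have hne' : cc b 0 - cc b j ≠ 0 := by
    rcases hj with rfl | rfl
    · exact sub_ne_zero.2 fun h' => absurd (hinj h') (by decide)
    · exact sub_ne_zero.2 fun h' => absurd (hinj h') (by decide)
  have h3 := (dvd_phi_iff hs hne').1 h2
  rcases hj with rfl | rfl
  · exact not_dvd h (by simp) h3
  · exact not_dvd h (by simp) h3

/-- the polynomials `e'` and `q2` have no common divisor modulo `q1` -/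
lemma no_common (h : OK b t) (hs : Sys (vw b t) p0 p1)
    (hrel : q2 b * w1 - q1 b * w2 = e' * hh (cc b))
    (l1 : IsLog (cc b) (vw b t) (vD p0 p1 (q1 b) w1))
    (l2 : IsLog (cc b) (vw b t) (vD p0 p1 (q2 b) w2)) {f : MvPolynomial (Fin 3) K}
    (hf : IsPosHomogeneous f) (h1 : e' ∈ Ideal.span {f, q1 b}) (h2 : q2 b ∈ Ideal.span {f, q1 b}) :
    False := by
  obtain ⟨k, hk, hfk⟩ := hf
  have key : ∀ g : MvPolynomial (Fin 3) K, g ∈ Ideal.span {f, q1 b} →
      rho (cc b 0) f ∣ rho (cc b 0) g := by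
    intro g hg
    obtain ⟨a, c, rfl⟩ := Ideal.mem_span_pair.1 hg
    rw [map_add, map_mul, map_mul, rho_q1, sub_self, lin_zero, zero_mul, mul_zero, add_zero]
    exact dvd_mul_left _ _
  have d1 := key _ h1
  have d2 := key _ h2
  rw [rho_q2] at d2
  have hinj := cc_inj h
  have hne : ∀ i k : Fin 4, i ≠ k → cc b i - cc b k ≠ 0 := fun i k hik =>
    sub_ne_zero.2 fun h' => hik (hinj h')
  have hf0 : rho (cc b 0) f ≠ 0 := by
    intro h0
    rw [h0, zero_dvd_iff] at d2
    exact mul_ne_zero (lin_ne_zero (hne 0 2 (by decide))) (lin_ne_zero (hne 0 3 (by decide))) d2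
  have hfu : ¬ IsUnit (rho (cc b 0) f) := by
    intro hu
    have h3 := (rho_homog (cc b 0) hfk).totalDegree hf0
    obtain ⟨a, ha, ha'⟩ := MvPolynomial.isUnit_iff_eq_C_of_isReduced.1 hu
    rw [ha', totalDegree_C] at h3
    omega
  obtain ⟨π, hπ, hπf⟩ := WfDvdMonoid.exists_irreducible_factor hfu hf0
  have hπ' := hπ.prime
  have fin : ∀ j : Fin 4, j = 2 ∨ j = 3 → π ∣ lin (cc b 0 - cc b j) → False := by
    intro j hj hd
    have hne' : cc b 0 - cc b j ≠ 0 := by
      rcases hj with rfl | rfl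
      · exact hne 0 2 (by decide)
      · exact hne 0 3 (by decide)
    have hass := hπ.associated_of_dvd (lin_prime hne').irreducible hd
    exact e_not_dvd h hs hrel l1 l2 hj ((hass.symm.dvd.trans hπf).trans d1)
  rcases hπ'.dvd_or_dvd (hπf.trans d2) with hd | hd
  · exact fin 2 (Or.inl rfl) hd
  · exact fin 3 (Or.inr rfl) hd

end

lemma constCoeff_of_homog' {p : MvPolynomial (Fin 3) K} {s : ℕ} (hs : 1 ≤ s)
    (h : p.IsHomogeneous s) : constantCoeff p = 0 := constCoeff_of_homog hs h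

theorem main (h : OK b t) :
    ∃ (θ : Fin 4 → Derivation K (MvPolynomial (Fin 3) K) (MvPolynomial (Fin 3) K))
      (g : Fin 4 → MvPolynomial (Fin 3) K),
      HypH (AA b t) θ g ∧ ∀ (p : ℕ) (d : Fin p → ℕ), ¬ HasShape (AA b t) p d := by
  obtain ⟨p0, p1, hs⟩ := exists_sys (m := 3) (by norm_num) (vw b t)
  obtain ⟨w1, w2, e', hw1, hw2, he, hrel, lE, lT, l1, l2, hspan, hall⟩ :=
    ci_structure (cc b) (vw b t) (cc_inj h) (cc_gen h) vw_ne (vw_det h) hs
      (ci4 h) (N := 2) (by norm_num)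
  set D1 := vD p0 p1 (q1 b) w1 with hD1
  set D2 := vD p0 p1 (q2 b) w2 with hD2
  set D3 := D2 + (X 0 ^ 3 : MvPolynomial (Fin 3) K) • vE with hD3
  set ε : Fin 4 → Der3 K := ![mk vE, mk (vT (cc b)), mk D1, mk D3] with hε
  set r : Fin 4 → MvPolynomial (Fin 3) K := ![q1 b * X 0 ^ 3, -e', q2 b, -q1 b] with hr
  have hsum : ∀ f : Fin 4 → MvPolynomial (Fin 3) K, ∑ j, f j • ε j =
      mk ((f 0 + f 3 * X 0 ^ 3) • vE + f 1 • vT (cc b) + f 2 • D1 + f 3 • D2) := by
    intro f
    have : (f 0 + f 3 * X 0 ^ 3) • vE + f 1 • vT (cc b) + f 2 • D1 + f 3 • D2 =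
        f 0 • vE + f 1 • vT (cc b) + f 2 • D1 + f 3 • D3 := by
      rw [hD3, smul_add, smul_smul, add_smul]
      abel
    rw [this, Fin.sum_univ_four, mk_add, mk_add, mk_add, mk_smul, mk_smul, mk_smul, mk_smul]
    rfl
  have hmk0 : ∀ η : Fin 3 → MvPolynomial (Fin 3) K, mk η = 0 ↔ η = 0 := fun η =>
    ⟨fun h0 => mk_inj (h0.trans mk_zero.symm), fun h0 => by rw [h0, mk_zero]⟩
  have hrelε : ∀ f : Fin 4 → MvPolynomial (Fin 3) K, ∑ j, f j • ε j = 0 ↔
      ∃ k, ∀ j, f j = k * r j := by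
    intro f
    rw [hsum, hmk0, hall]
    constructor
    · rintro ⟨k, k0, k1, k2, k3⟩
      refine ⟨k, fun j => ?_⟩
      fin_cases j
      · change f 0 = k * (q1 b * X 0 ^ 3)
        rw [k3] at k0
        linear_combination k0
      · exact k1
      · exact k2
      · exact k3
    · rintro ⟨k, hk⟩
      refine ⟨k, ?_, hk 1, hk 2, hk 3⟩
      have k0 := hk 0
      have k3 := hk 3
      simp [hr] at k0 k3
      rw [k0, k3]
      ring
  have hmem : ∀ i, ε i ∈ logDer (AA b t) := by
    intro i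
    fin_cases i
    · exact (mk_mem_AA _).2 lE
    · exact (mk_mem_AA _).2 lT
    · exact (mk_mem_AA _).2 l1
    · change mk D3 ∈ logDer (AA b t)
      rw [hD3, mk_add, mk_smul]
      exact Submodule.add_mem _ ((mk_mem_AA _).2 l2)
        (Submodule.smul_mem _ _ ((mk_mem_AA _).2 lE))
  have hgen : ∀ θ ∈ logDer (AA b t), ∃ f : Fin 4 → MvPolynomial (Fin 3) K,
      θ = ∑ j, f j • ε j := by
    intro θ hθ
    rw [mem_logDer_AA] at hθ
    obtain ⟨g0, g1, g2, g3, hh⟩ := hspan _ hθ
    refine ⟨![g0 - g3 * X 0 ^ 3, g1, g2, g3], ?_⟩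
    rw [hsum, eq_mk θ, hh]
    simp
  have hspan' : Submodule.span (MvPolynomial (Fin 3) K) (Set.range ε) = logDer (AA b t) := by
    apply le_antisymm
    · rw [Submodule.span_le]
      rintro _ ⟨i, rfl⟩
      exact hmem i
    · intro θ hθ
      obtain ⟨f, rfl⟩ := hgen θ hθ
      exact Submodule.sum_mem _ fun j _ => Submodule.smul_mem _ _ (Submodule.subset_span ⟨j, rfl⟩)
  have hhomE : ∀ j : Fin 3, (vE j : MvPolynomial (Fin 3) K).IsHomogeneous 1 := by
    intro j
    fin_cases j <;> exact isHomogeneous_X _ _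
  have hhom : ∀ j, IsHomogeneousDer (ε j) ((![1, 4, 4, 4] : Fin 4 → ℕ) j) := by
    intro i
    fin_cases i
    · intro j
      change (mk vE (X j)).IsHomogeneous 1
      rw [mk_X]
      exact hhomE j
    · intro j
      change (mk (vT (cc b)) (X j)).IsHomogeneous 4
      rw [mk_X]
      fin_cases j
      · exact isHomogeneous_zero _ _ _
      · exact isHomogeneous_zero _ _ _
      · exact hh_homog _
    · intro j
      change (mk D1 (X j)).IsHomogeneous 4
      rw [mk_X]
      fin_cases j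
      · exact q1_homog.mul hs.h0
      · exact q1_homog.mul hs.h1
      · exact hw1
    · intro j
      change (mk D3 (X j)).IsHomogeneous 4
      rw [mk_X]
      have h1 : (X 0 ^ 3 : MvPolynomial (Fin 3) K).IsHomogeneous 3 := by
        simpa using (isHomogeneous_X K (0 : Fin 3)).pow 3
      have h2 : ∀ j, (D2 j).IsHomogeneous 4 := by
        intro j
        fin_cases j
        · exact q2_homog.mul hs.h0
        · exact q2_homog.mul hs.h1
        · exact hw2
      exact (h2 j).add (h1.mul (hhomE j))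
  have he0 : e' ≠ 0 := by
    intro h0
    apply e_not_dvd h hs hrel l1 l2 (Or.inl rfl)
    rw [h0, map_zero]
    exact dvd_zero _
  have hX3 : (X 0 ^ 3 : MvPolynomial (Fin 3) K).IsHomogeneous 3 := by
    simpa using (isHomogeneous_X K (0 : Fin 3)).pow 3
  have hX3' : (X 0 ^ 3 : MvPolynomial (Fin 3) K) ≠ 0 := pow_ne_zero _ (X_ne_zero _)
  have hr0 : ∀ j, constantCoeff (r j) = 0 := by
    intro j
    fin_cases j
    · exact constCoeff_of_homog (t := 5) (by norm_num) (q1_homog.mul hX3)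
    · exact constCoeff_of_homog (t := 2) (by norm_num) he.neg
    · exact constCoeff_of_homog (t := 2) (by norm_num) q2_homog
    · exact constCoeff_of_homog (t := 2) (by norm_num) q1_homog.neg
  have hcof : ∀ i : Fin 4, (-1) ^ ((i : ℕ) + 1) * (minorMatrix ε i).det =
      r i * defPoly (AA b t) := by
    obtain ⟨k, hk⟩ := (hrelε _).1 (minors_relation ε)
    have h3 := hk 3
    have hd : (cmat fun r => ε ((3 : Fin 4).succAbove r)).det = -(q1 b * defPoly (AA b t)) := by
      rw [Matrix.det_fin_three]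
      have f0 : ∀ j, (cmat fun r => ε ((3 : Fin 4).succAbove r)) 0 j = vE j := fun j => mk_X _ _
      have f1 : ∀ j, (cmat fun r => ε ((3 : Fin 4).succAbove r)) 1 j = vT (cc b) j :=
        fun j => mk_X _ _
      have f2 : ∀ j, (cmat fun r => ε ((3 : Fin 4).succAbove r)) 2 j = D1 j := fun j => mk_X _ _
      simp only [f0, f1, f2]
      rw [defPoly_AA, ← hs.eq]
      simp [vE, vT, hD1, vD]
      ring
    rw [hd] at h3
    have hk' : k = defPoly (AA b t) := by
      have : q1 b * k = q1 b * defPoly (AA b t) := by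
        simp [hr] at h3
        linear_combination -h3
      exact mul_left_cancel₀ q1_ne this
    intro i
    have := hk i
    rw [hk', mul_comm (defPoly (AA b t))] at this
    exact this
  refine ⟨ε, r, ⟨hmem, fun i => ⟨_, hhom i⟩, hcof, ?_, ?_, ?_, ?_⟩, fun p d => ?_⟩
  · change -q1 b ≠ 0
    exact neg_ne_zero.2 q1_ne
  · intro i
    fin_cases i
    · exact ⟨mul_ne_zero q1_ne hX3', 5, by norm_num, q1_homog.mul hX3⟩
    · exact ⟨neg_ne_zero.2 he0, 2, by norm_num, he.neg⟩
    · exact ⟨q2_ne, 2, by norm_num, q2_homog⟩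
  · rintro ⟨f, hf, hfi⟩
    have hI : (Ideal.span {f, r (Fin.last 3)} : Ideal (MvPolynomial (Fin 3) K)) =
        Ideal.span {f, q1 b} := by
      change Ideal.span {f, -q1 b} = _
      rw [Ideal.span_insert, Ideal.span_insert, Ideal.span_singleton_neg]
    rw [hI] at hfi
    refine no_common h hs hrel l1 l2 hf ?_ (hfi 2)
    have := hfi 1
    change -e' ∈ _ at this
    exact neg_mem_iff.1 this
  · -- projective dimension
    set G : (Fin 4 → MvPolynomial (Fin 3) K) →ₗ[MvPolynomial (Fin 3) K] logDer (AA b t) :=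
      Fintype.linearCombination (MvPolynomial (Fin 3) K)
        (fun i : Fin 4 => (⟨ε i, hmem i⟩ : logDer (AA b t))) with hG
    have hG' : ∀ x, ((G x : logDer (AA b t)) : Der3 K) = ∑ j, x j • ε j := by
      intro x
      rw [hG, Fintype.linearCombination_apply, AddSubmonoidClass.coe_finsetSum]
      rfl
    refine pd_eq_one G ?_ r ?_ ?_ ?_
    · rintro ⟨θ, hθ⟩
      obtain ⟨f, hf⟩ := hgen θ hθ
      exact ⟨f, Subtype.ext ((hG' f).trans hf.symm)⟩
    · intro x
      have h1 : G x = 0 ↔ ((G x : logDer (AA b t)) : Der3 K) = 0 :=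
        ⟨fun h => by rw [h]; rfl, fun h => Subtype.ext h⟩
      rw [h1, hG', hrelε]
      constructor
      · rintro ⟨k, hk⟩
        exact ⟨k, funext fun j => by rw [hk j]; rfl⟩
      · rintro ⟨k, rfl⟩
        exact ⟨k, fun j => rfl⟩
    · intro a ha
      have := congrFun ha 3
      change a * (-q1 b) = 0 at this
      exact (mul_eq_zero.1 this).resolve_right (neg_ne_zero.2 q1_ne)
    · intro φ hφ
      have h1 : φ r = ∑ j, r j * φ (Pi.single j 1) := by
        conv_lhs => rw [← Finset.univ_sum_single r, map_sum]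
        refine Finset.sum_congr rfl fun j _ => ?_
        have : (Pi.single j (r j) : Fin 4 → MvPolynomial (Fin 3) K) =
            r j • Pi.single j 1 := by
          rw [← Pi.single_smul, smul_eq_mul, mul_one]
        rw [this, map_smul, smul_eq_mul]
      have h2 := congrArg constantCoeff hφ
      rw [h1, map_sum, map_one, Finset.sum_eq_zero (fun j _ => by rw [map_mul, hr0, zero_mul])] at h2
      exact zero_ne_one h2
  · exact no_shape ε hhom hspan' r hr0 q1_homog.neg (neg_ne_zero.2 q1_ne)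
      (fun f hf => (hrelε f).1 hf) p d

end Pool.Agent.Q39.RS
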